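import Pool.Agent.Helper98.EX.Stmts2

/-!
# LOW: trivial lower bound on `m1`
-/

namespace Pool.Agent.Helper98.EX

open Finset

theorem low_step {N : ℕ} {r l : ℕ → ℝ} (h : Adm N r l) (S : Finset ℕ) (x : ℕ) (η : Cfg N) :
    stp r l S (fun ξ => (ht ξ x : ℝ)) η ≤ ht η x + 1 / (2 * N) := by
  unfold stp
  have hs : (∑ y ∈ full N, (r y * ((ht (RmS S y η) x : ℝ) - (ht η x : ℝ)) +
      l y * ((ht (LmS S y η) x : ℝ) - (ht η x : ℝ)))) ≤ 1 := by
    have h1 : ∀ y ∈ full N, (r y * ((ht (RmS S y η) x : ℝ) - (ht η x : ℝ)) +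
        l y * ((ht (LmS S y η) x : ℝ) - (ht η x : ℝ))) ≤ if y = x then (1 : ℝ) else 0 := by
      intro y hy
      rw [full, Finset.mem_Ico] at hy
      obtain ⟨a, b, c, d⟩ := h y hy.1 hy.2
      by_cases hyx : y = x
      · rw [if_pos hyx]
        have e1 : (ht (RmS S y η) x : ℝ) - (ht η x : ℝ) ≤ 1 := by
          have : ht (RmS S y η) x ≤ ht η x + 1 := by
            unfold RmS; split_ifs
            · exact ht_Rm_le η y x
            · omega
          have := (Nat.cast_le (α := ℝ)).2 this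
          push_cast at this
          linarith
        have e1' : 0 ≤ (ht (RmS S y η) x : ℝ) - (ht η x : ℝ) := by
          have := (Nat.cast_le (α := ℝ)).2 (hle_RmS_self S y η x)
          push_cast at this
          linarith
        have e2 : (ht (LmS S y η) x : ℝ) - (ht η x : ℝ) ≤ 0 := by
          have := (Nat.cast_le (α := ℝ)).2 (hle_LmS_self S y η x)
          push_cast at this
          linarith
        nlinarith [mul_nonneg c (neg_nonneg.2 e2)]
      · rw [if_neg hyx]
        have e1 : ht (RmS S y η) x = ht η x := by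
          unfold RmS; split_ifs
          · exact ht_Rm_ne η (Ne.symm hyx)
          · rfl
        have e2 : ht (LmS S y η) x = ht η x := by
          unfold LmS; split_ifs
          · exact ht_Lm_ne η (Ne.symm hyx)
          · rfl
        rw [e1, e2]; simp
    refine (Finset.sum_le_sum h1).trans ?_
    rw [Finset.sum_ite_eq']
    split_ifs <;> norm_num
  have : (∑ y ∈ full N, (r y * ((ht (RmS S y η) x : ℝ) - (ht η x : ℝ)) +
      l y * ((ht (LmS S y η) x : ℝ) - (ht η x : ℝ)))) / (2 * (N : ℝ)) ≤ 1 / (2 * N) :=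
    div_le_div_of_nonneg_right hs (by positivity)
  linarith

theorem low_ev {N : ℕ} {r l : ℕ → ℝ} (h : Adm N r l) (σ : ℕ → Finset ℕ) (x m : ℕ) (η : Cfg N) :
    ev r l σ m (fun ξ => (ht ξ x : ℝ)) η ≤ ht η x + m / (2 * N) := by
  induction m generalizing σ η with
  | zero => simp
  | succ m ih =>
    rw [ev_succ]
    have h1 : stp r l (σ 0) (ev r l (fun i => σ (i + 1)) m (fun ξ => (ht ξ x : ℝ))) η ≤
        stp r l (σ 0) (fun ξ => (ht ξ x : ℝ) + (m : ℝ) / (2 * N)) η :=
      stp_mono h (fun ξ => ih _ ξ) η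
    rw [stp_add r l (σ 0) (fun ξ => (ht ξ x : ℝ)) (fun _ => (m : ℝ) / (2 * N)), stp_const] at h1
    have h2 := low_step h (σ 0) x η
    have h3 : ((m + 1 : ℕ) : ℝ) / (2 * N) = m / (2 * N) + 1 / (2 * N) := by
      push_cast; ring
    rw [h3]
    linarith

theorem st_LOW (hG : ST_GAIN) : ST_LOW := by
  intro ε c m0 hε hc
  obtain ⟨c', N0, hc', H⟩ := hG ε c c m0 hε hc hc
  refine ⟨c', N0, hc', ?_⟩
  intro N k r l m1 hN hk1 hk2 hadm hp
  have hkN : k ≤ N := by
    have : (k : ℝ) ≤ N := by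
      have : 0 ≤ c * (N : ℝ) := by positivity
      nlinarith
    exact_mod_cast this
  have hx : ((N - k : ℕ) : ℝ) = (N : ℝ) - k := by
    rw [Nat.cast_sub hkN]
  have h1 := H N k r l m1 (N - k) hN hk1 hk2 hadm (by rw [hx]; nlinarith) (by rw [hx]; nlinarith) hp
  have h2 := low_ev hadm (fun _ => full N) (N - k) m1 (bot N k)
  linarith

end Pool.Agent.Helper98.EX
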