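import Pool.Agent.Helper98.EX.Stmts2

/-!
# STRLOW: lower bound on `m1` from a weak stretch
-/

namespace Pool.Agent.Helper98.EX

open Finset

theorem st_STRLOW (hS : ST_STRETCH) (hG : ST_GAIN) : ST_STRLOW := by
  intro ε c c2 m0 hε hc hc2
  obtain ⟨c', N0, hc', H⟩ := hG ε c c2 m0 hε hc hc2
  refine ⟨2 / 3 * c', by positivity, ?_⟩
  intro m' hm'
  refine ⟨max N0 1, ?_⟩
  intro N k r l m1 A hN hk1 hk2 hadm hA1 hA2 hrl hp
  have hN0 : N0 ≤ N := le_trans (le_max_left _ _) hN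
  have hN1 : 1 ≤ N := le_trans (le_max_right _ _) hN
  have hN1' : (1 : ℝ) ≤ N := by exact_mod_cast hN1
  have hAN : A + m' < N := by
    have : ((A + m' : ℕ) : ℝ) < N := by
      push_cast
      nlinarith
    exact_mod_cast this
  have h1 := hS N r l A m' m1 (bot N k) hadm hm' hAN hrl
  have e1 : ev r l (fun _ => full N) m1
      (fun ξ => ∑ x ∈ Finset.Ioc A (A + m'), (ht ξ x : ℝ)) (bot N k) =
      ∑ x ∈ Finset.Ioc A (A + m'), ev r l (fun _ => full N) m1 (fun ξ => (ht ξ x : ℝ)) (bot N k) :=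
    ev_sum (fun _ => full N) m1 (Finset.Ioc A (A + m')) (fun x ξ => (ht ξ x : ℝ)) (bot N k)
  rw [e1] at h1
  have h2 : ∑ x ∈ Finset.Ioc A (A + m'), ((ht (bot N k) x : ℝ) + c' * N) ≤
      ∑ x ∈ Finset.Ioc A (A + m'),
        ev r l (fun _ => full N) m1 (fun ξ => (ht ξ x : ℝ)) (bot N k) := by
    apply Finset.sum_le_sum
    intro x hx
    rw [Finset.mem_Ioc] at hx
    have a1 : (A : ℝ) ≤ x := by exact_mod_cast hx.1.le
    have a2 : (x : ℝ) ≤ (A : ℝ) + m' := by exact_mod_cast hx.2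
    exact H N k r l m1 x hN0 hk1 hk2 hadm (by linarith) (by linarith) hp
  rw [Finset.sum_add_distrib, Finset.sum_const, Nat.card_Ioc, Nat.add_sub_cancel_left,
    nsmul_eq_mul] at h2
  have h3 : 3 / 2 * (m1 : ℝ) / (2 * N) = 3 / 2 * ((m1 : ℝ) / (2 * N)) := by ring
  rw [h3] at h1
  linarith

end Pool.Agent.Helper98.EX
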